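import Pool.Agent.H23.QN.P_MAIN
import Pool.Agent.H23.QN.P_UQ
import Pool.Agent.H23.QN.P_C
import Pool.Agent.H23.QN.P_FE
import Pool.Agent.H23.QN.P_BT
import Pool.Agent.H23.QN.P_CT
import Pool.Agent.H23.QN.P_NX
import Pool.Agent.H23.QN.P_QS
import Pool.Agent.H23.QN.P_R
import Pool.Agent.H97.QN.B0
import Pool.Agent.H97.QN.C1
import Pool.Agent.H97.QN.FW
import Pool.Agent.H97.QN.LIN
import Pool.Agent.H97.QN.RA
import Pool.Agent.H97.QN.SEL
import Pool.Agent.H20.QN.B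
import Pool.Agent.H20.QN.B1
import Pool.Agent.H78.QN.P_BR
import Pool.Agent.H78.QN.P_TR

/-!
# Quadratic NLS on the circle: real data need not tend to zero

For every `ν ≥ 1` there are arbitrarily small real data in `A_ν(𝕋)` from which the equation
`-i u_t = u_xx + u²` has no solution on `[0, ∞)` tending to `0` as `t → +∞`, and no solution on
`(-∞, 0]` tending to `0` as `t → -∞`.
-/

namespace Pool.Agent.Results.MP_b9a139_an.RealDataDisproof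

open Filter Topology Set

/-- Membership in `A_ν(𝕋)`, `𝕋 = ℝ/ℤ`, of a continuous function on the circle. -/
def InA (ν : ℝ) (f : C(UnitAddCircle, ℂ)) : Prop :=
  Summable fun k : ℤ => ‖fourierCoeff f k‖ * ν ^ k.natAbs

/-- The norm of `A_ν(𝕋)`. -/
noncomputable def normA (ν : ℝ) (f : C(UnitAddCircle, ℂ)) : ℝ :=
  ∑' k : ℤ, ‖fourierCoeff f k‖ * ν ^ k.natAbs

/-- `u` is a solution of `-i u_t = u_xx + u²` on the time interval `J`: a continuous curve in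
`A_ν(𝕋)` all whose Fourier coefficients satisfy the equation
`û_k' = i (-4π²k² û_k + (u²)^_k)`. -/
structure IsSolution (ν : ℝ) (J : Set ℝ) (u : ℝ → C(UnitAddCircle, ℂ)) : Prop where
  mem : ∀ t ∈ J, InA ν (u t)
  cont : ∀ t ∈ J, Tendsto (fun s => normA ν (u s - u t)) (𝓝[J] t) (𝓝 0)
  eqn : ∀ t ∈ J, ∀ k : ℤ, HasDerivWithinAt (fun s => fourierCoeff (u s) k)
    (Complex.I * (-(4 * (Real.pi : ℂ) ^ 2 * (k : ℂ) ^ 2 * fourierCoeff (u t) k)
      + fourierCoeff (u t * u t : C(UnitAddCircle, ℂ)) k)) J t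

lemma IsSolution.toSol {ν : ℝ} {J : Set ℝ} {u : ℝ → C(UnitAddCircle, ℂ)}
    (h : IsSolution ν J u) : H23.QN.IsSol ν J u :=
  { mem := h.mem, cont := h.cont, eqn := h.eqn }

/-- The crew's main theorem. -/
theorem main : H23.QN.S_Main := by
  have hG1 := H23.QN.G1 H23.QN.L1
  have hG2 := H23.QN.G2 H23.QN.L1
  have hHD := H97.QN.HD hG1 H23.QN.BT
  have hVG := H97.QN.VG hG1 H23.QN.BT
  have hLC := H97.QN.LC hG1 H23.QN.BT
  have hRC := H97.QN.RC hG1 H23.QN.BT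
  have hRA := H97.QN.RA hRC
  have hNX := H23.QN.NX hHD hVG H23.QN.QS H23.QN.CT H23.QN.BT
  have hFE := H23.QN.FE hHD
  have hR := H23.QN.R hLC hRC hRA H97.QN.SEL hNX hFE
  have hC := H23.QN.C H97.QN.C1
  have hB0 := H97.QN.B0 hG1 H23.QN.BT
  have hB1 := H20.QN.B1 H23.QN.L1
  have hB := H20.QN.B hB0 hB1 hG2
  exact H23.QN.MAIN (H97.QN.FW hC hB hR H78.QN.BR1 H78.QN.BR2) H78.QN.TR

/-- For every `ν ≥ 1` and `ε > 0` there is a real datum `u0` with `0 < ‖u0‖ < ε` in `A_ν(𝕋)`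
such that (solutions from `u0` being unique on every time interval) no solution starting from
`u0` exists for all `t ≥ 0` and tends to `0` as `t → +∞`, and none exists for all `t ≤ 0` and
tends to `0` as `t → -∞`. -/
theorem result : ∀ ν : ℝ, 1 ≤ ν → ∀ ε : ℝ, 0 < ε → ∃ u0 : C(UnitAddCircle, ℂ),
    (∀ x, (u0 x).im = 0) ∧ InA ν u0 ∧ 0 < normA ν u0 ∧ normA ν u0 < ε ∧
    (∀ J : Set ℝ, J.OrdConnected → (0:ℝ) ∈ J → ∀ u w : ℝ → C(UnitAddCircle, ℂ),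
      IsSolution ν J u → IsSolution ν J w → u 0 = u0 → w 0 = u0 → ∀ t ∈ J, u t = w t) ∧
    (¬ ∃ u : ℝ → C(UnitAddCircle, ℂ), IsSolution ν (Ici 0) u ∧ u 0 = u0 ∧
      Tendsto (fun t => normA ν (u t)) atTop (𝓝 0)) ∧
    (¬ ∃ u : ℝ → C(UnitAddCircle, ℂ), IsSolution ν (Iic 0) u ∧ u 0 = u0 ∧
      Tendsto (fun t => normA ν (u t)) atBot (𝓝 0)) := by
  intro ν hν ε hε
  obtain ⟨u0, h1, h2, h3, h4, h5, h6⟩ := main ν hν ε hε
  refine ⟨u0, h1, h2, h3, h4, ?_, ?_, ?_⟩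
  · intro J hJ h0 u w hu hw hu0 hw0
    exact H23.QN.UQ H78.QN.BR1 ν hν J hJ h0 u w hu.toSol hw.toSol (hu0.trans hw0.symm)
  · rintro ⟨u, hu, hu0, hut⟩
    exact h5 ⟨u, hu.toSol, hu0, hut⟩
  · rintro ⟨u, hu, hu0, hut⟩
    exact h6 ⟨u, hu.toSol, hu0, hut⟩

end Pool.Agent.Results.MP_b9a139_an.RealDataDisproof
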